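import Pool.Agent.J6H54.CG.Stm

/-!
# CG-04: a geodesic word whose path stays near `j` has bounded length
-/

set_option autoImplicit false

namespace Pool.Agent.J6H16.CG04

open Pool.Agent.J6H54.CG

/-- `n ≤ A + C log n` bounds `n` -/
theorem log_bound (A C n : ℕ) (h : n ≤ A + C * Nat.log 2 n) :
    n ≤ A + C * (2 * (A + 2 * C) + 1) := by
  rcases Nat.eq_zero_or_pos n with h0 | h0
  · omega
  have h1 : 2 ^ Nat.log 2 n ≤ n := Nat.pow_log_le_self 2 h0.ne'
  obtain ⟨p, hp | hp⟩ : ∃ p, Nat.log 2 n = 2 * p ∨ Nat.log 2 n = 2 * p + 1 := by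
    refine ⟨Nat.log 2 n / 2, ?_⟩
    omega
  all_goals
    have h2 : (p + 1) * (p + 1) ≤ 2 ^ Nat.log 2 n := by
      have h3 : p + 1 ≤ 2 ^ p := Nat.lt_two_pow_self
      calc (p + 1) * (p + 1) ≤ 2 ^ p * 2 ^ p := Nat.mul_le_mul h3 h3
        _ = 2 ^ (2 * p) := by rw [two_mul, pow_add]
        _ ≤ 2 ^ Nat.log 2 n := Nat.pow_le_pow_right (by norm_num) (by omega)
    have h4 : (p + 1) * (p + 1) ≤ A + C * (2 * p + 1) := by
      refine (h2.trans h1).trans (h.trans ?_)
      exact Nat.add_le_add_left (Nat.mul_le_mul_left C (by omega)) A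
    have h5 : p + 1 ≤ A + 2 * C := by
      by_contra hc
      push Not at hc
      have h6 : (A + 2 * C + 1) * (p + 1) ≤ (p + 1) * (p + 1) := Nat.mul_le_mul_right _ hc
      nlinarith [Nat.zero_le (A * p), Nat.zero_le (C * p)]
    have h7 : Nat.log 2 n ≤ 2 * (A + 2 * C) + 1 := by omega
    exact h.trans (Nat.add_le_add_left (Nat.mul_le_mul_left C h7) A)

/-- CG-04 -/
theorem m04 (h2 : S_metric) (h3 : S_in) : S_inside := by
  intro k T R D hT hB
  have hk : 2 ≤ k := hT.two_le
  obtain ⟨C, hC⟩ := h2 k T R hT hB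
  obtain ⟨A, hA⟩ : ∃ A : ℕ, A = C * ((R + 2 * D) + (2 * D + R) + 2) + R * (2 * D + R) := ⟨_, rfl⟩
  refine ⟨A + C * (2 * (A + 2 * C) + 1) + 1, ?_⟩
  intro j s w hw hI
  rcases w with _ | ⟨a, v⟩
  · simp
  have hv : Geo k T v := by
    have : Geo k T ([a] ++ v) := by simpa using hw
    exact this.right hT
  have hin : ∀ i < v.length, (s + a.2 + ht (v.take i) - j).natAbs ≤ D := by
    intro i hi
    have := hI (i + 1) (by omega) (by simpa using hi)
    rw [List.take_succ_cons, ht_cons, ← add_assoc] at this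
    exact this
  rcases List.eq_nil_or_concat v with hv0 | ⟨u, b, hub⟩
  · subst hv0
    simp
  have hvl : v.length = u.length + 1 := by simp [hub]
  obtain ⟨s', hs'⟩ : ∃ s' : ℤ, s' = s + a.2 := ⟨_, rfl⟩
  rw [← hs'] at hin
  have h0 : (s' - j).natAbs ≤ D := by
    have := hin 0 (by omega)
    simpa using this
  obtain ⟨hkad, habs⟩ := h3 k T R hk hB v (j - D) (j + D) s' hv.1 (by
    intro i hi
    have := hin i hi
    omega)
  have hvx : Kad k (R + 2 * D : ℕ) (val k v).1 := by
    have h4 := kad_shift hk hkad (-s')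
    rw [← mul_assoc, ← zpow_add₀ (kne hk), neg_add_cancel, zpow_zero, one_mul] at h4
    exact kad_mono hk (by omega) h4
  have hpos : (0 : ℚ) < (k : ℚ) ^ s' := zpow_pos (kpos hk) _
  have hvabs : |(val k v).1| ≤ v.length * (k : ℚ) ^ (2 * D + R : ℕ) := by
    rw [abs_mul, abs_of_pos hpos] at habs
    have h5 : (k : ℚ) ^ (j + D + R) ≤ (k : ℚ) ^ s' * (k : ℚ) ^ (2 * D + R : ℕ) := by
      rw [← zpow_natCast, ← zpow_add₀ (kne hk)]
      apply zpow_le_zpow_right₀ (one_lt hk).le
      push_cast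
      omega
    have h6 : (k : ℚ) ^ s' * |(val k v).1| ≤
        (k : ℚ) ^ s' * (v.length * (k : ℚ) ^ (2 * D + R : ℕ)) := by
      refine habs.trans ?_
      have : (v.length : ℚ) * (k : ℚ) ^ (j + D + R) ≤
          v.length * ((k : ℚ) ^ s' * (k : ℚ) ^ (2 * D + R : ℕ)) :=
        mul_le_mul_of_nonneg_left h5 (Nat.cast_nonneg _)
      calc _ ≤ _ := this
        _ = _ := by ring
    exact le_of_mul_le_mul_left h6 hpos
  have hht : (ht v).natAbs ≤ 2 * D + R := by
    have hb : b ∈ v := by simp [hub]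
    have h7 := hB.ht_le b (hv.1 b hb)
    have h8 := hin u.length (by omega)
    have h9 : v.take u.length = u := by simp [hub]
    rw [h9] at h8
    have h10 : ht v = ht u + b.2 := by simp [hub]
    omega
  obtain ⟨L, hL⟩ : ∃ L, L = Nat.log 2 v.length + 1 := ⟨_, rfl⟩
  have hvL : v.length ≤ k ^ L := by
    have h11 : v.length < 2 ^ (Nat.log 2 v.length + 1) :=
      Nat.lt_pow_succ_log_self (by norm_num) _
    rw [← hL] at h11
    exact h11.le.trans (Nat.pow_le_pow_left hk L)
  have hvabs2 : |(val k v).1| ≤ (k : ℚ) ^ (2 * D + R + L) := by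
    refine hvabs.trans ?_
    have hvL' : (v.length : ℚ) ≤ (k : ℚ) ^ L := by exact_mod_cast hvL
    have hp2 : (0 : ℚ) ≤ (k : ℚ) ^ (2 * D + R : ℕ) := (pow_pos (kpos hk) _).le
    calc (v.length : ℚ) * (k : ℚ) ^ (2 * D + R : ℕ) ≤ (k : ℚ) ^ L * (k : ℚ) ^ (2 * D + R : ℕ) :=
          mul_le_mul_of_nonneg_right hvL' hp2
      _ = (k : ℚ) ^ (2 * D + R + L) := by rw [← pow_add, add_comm L]
  have hm := hC (R + 2 * D) (2 * D + R + L) (val k v).1 hvx hvabs2
  have hvert := len_vert hT hB (ht v)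
  have hadd := len_add hT (x := (val k v).1) (y := 0) (m := 0) (n := ht v)
    (ka_val hT hv.1) ka_zero
  simp only [mul_zero, add_zero, zero_add] at hadd
  have hval : val k v = ((val k v).1, ht v) := by
    rw [← val_snd (k := k) v]
  have hlen : v.length ≤ len k T ((val k v).1, 0) + len k T (0, ht v) := by
    rw [← hv.2]
    rw [← hval] at hadd
    exact hadd
  have h12 : R * (ht v).natAbs ≤ R * (2 * D + R) := Nat.mul_le_mul_left R hht
  have h13 : v.length ≤ A + C * Nat.log 2 v.length := by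
    have h14 : C * (R + 2 * D + (2 * D + R + L) + 1) =
        C * ((R + 2 * D) + (2 * D + R) + 2) + C * Nat.log 2 v.length := by
      rw [hL]; ring
    rw [h14] at hm
    omega
  have h15 := log_bound A C v.length h13
  simp only [List.length_cons]
  omega

end Pool.Agent.J6H16.CG04
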